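import Pool.Agent.Q105.FRX.Bal

/-!
# `MP_74778d_co`: balanced fractional revival between non-cospectral vertices

The answer to Q1 is yes. The graph has two special vertices `a`, `b` and four cells
`P₁, Q₁, P₂, Q₂` of `31960` vertices; `a` is joined to all of `P₁`, `b` to all of `Q₁`, and the cells
are joined by circulant graphs with degrees `P₁P₁ = 76`, `P₁Q₁ = 12`, `Q₁Q₁ = 52`,
`P₁P₂ = Q₁Q₂ = 192`, `P₂P₂ = 178`, `P₂Q₂ = 2`, `Q₂Q₂ = 174`. The eigenvalues in the support of `a`
are `80 ± 2β√2` with `β ∈ {-95, 1, 101}`, all congruent to `1` modulo `4`, so that at time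
`τ = π/(4√2)` the two classes pick up opposite phases.
-/

namespace Pool.Agent.Results.MP_74778d_co.BalancedRevival

open Matrix Pool.Agent.Q105.FRX

/-- The transition matrix `U(t) = exp(itA)` of the continuous-time quantum walk on `X`. -/
noncomputable def U {V : Type} [Fintype V] [DecidableEq V] (X : SimpleGraph V) [DecidableRel X.Adj]
    (t : ℝ) : Matrix V V ℂ :=
  NormedSpace.exp ((Complex.I * (t : ℂ)) • X.adjMatrix ℂ)

/-- Balanced fractional revival from `a` to `b` at time `τ`: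
`U(τ) e_a = α e_a + β e_b` with `|α| = |β| = 1/√2`. -/
def BalancedFR {V : Type} [Fintype V] [DecidableEq V] (X : SimpleGraph V) [DecidableRel X.Adj]
    (a b : V) (τ : ℝ) : Prop :=
  ∃ α β : ℂ, ‖α‖ = 1 / √2 ∧ ‖β‖ = 1 / √2 ∧
    U X τ *ᵥ (Pi.single a 1) = α • (Pi.single a 1 : V → ℂ) + β • (Pi.single b 1 : V → ℂ)

/-- `a` and `b` are cospectral: `(E_θ)_{aa} = (E_θ)_{bb}` for every `θ`. -/
def Cospectral {V : Type} [Fintype V] [DecidableEq V] (X : SimpleGraph V) [DecidableRel X.Adj]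
    (a b : V) : Prop :=
  ∀ θ : ℝ, eigEntry X θ a a = eigEntry X θ b b

/-- the special vertex `a` -/
abbrev va : Vt 31960 := Sum.inl 0

/-- the special vertex `b` -/
abbrev vb : Vt 31960 := Sum.inl 1

section aux

theorem cast_eig (w : Vt 31960 → ℝ) (θ : ℝ) (hw : Xb.adjMatrix ℝ *ᵥ w = θ • w) :
    (Xb.adjMatrix ℂ) *ᵥ (fun v => (w v : ℂ)) = (θ : ℂ) • (fun v => (w v : ℂ)) := by
  ext u
  have h1 : ∑ v, (Xb.adjMatrix ℝ) u v * w v = θ * w u := by
    have := congrFun hw u
    simpa only [Matrix.mulVec, dotProduct, Pi.smul_apply, smul_eq_mul] using this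
  have h2 := congrArg (fun t : ℝ => (t : ℂ)) h1
  simp only [Complex.ofReal_sum, Complex.ofReal_mul] at h2
  have h4 : ∀ v, (((Xb.adjMatrix ℝ) u v : ℝ) : ℂ) = (Xb.adjMatrix ℂ) u v := by
    intro v; simp only [SimpleGraph.adjMatrix_apply]; split_ifs <;> simp
  simp only [h4] at h2
  simp only [Matrix.mulVec, dotProduct, Pi.smul_apply, smul_eq_mul]
  exact h2

theorem U_eig (w : Vt 31960 → ℝ) (θ τ : ℝ) (hw : Xb.adjMatrix ℝ *ᵥ w = θ • w) :
    U Xb τ *ᵥ (fun v => (w v : ℂ)) = Complex.exp (Complex.I * (τ * θ : ℝ)) • (fun v => (w v : ℂ)) := by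
  have hM : ((Complex.I * (τ : ℂ)) • Xb.adjMatrix ℂ) *ᵥ (fun v => (w v : ℂ))
      = (Complex.I * (τ * θ : ℝ)) • (fun v => (w v : ℂ)) := by
    rw [Matrix.smul_mulVec, cast_eig w θ hw, smul_smul]
    congr 1
    push_cast; ring
  exact Pool.Agent.Q105.FR.exp_mulVec _ _ _ hM

/-- the time -/
noncomputable def tau : ℝ := Real.pi / (4 * √2)

theorem s2 : √2 * √2 = 2 := Real.mul_self_sqrt (by norm_num)

theorem s2' : (-√2) * (-√2) = 2 := by rw [neg_mul_neg]; exact s2

/-- all three phases of one class agree -/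
theorem phase_pos (r : Fin 3) :
    Complex.exp (Complex.I * (tau * lam (√2) r : ℝ))
      = Complex.exp (Complex.I * (80 * tau : ℝ)) * Complex.I := by
  have hs : √2 ≠ 0 := by positivity
  have ht : tau * √2 = Real.pi / 4 := by unfold tau; field_simp
  have key : ∀ k : ℤ, ∀ x : ℝ, x = 80 * tau + Real.pi / 2 + k * (2 * Real.pi) →
      Complex.exp (Complex.I * (x : ℝ)) = Complex.exp (Complex.I * (80 * tau : ℝ)) * Complex.I := by
    intro k x hx
    have h1 : Complex.I * (x : ℝ) = Complex.I * (80 * tau : ℝ) + Real.pi / 2 * Complex.I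
        + k * (2 * Real.pi * Complex.I) := by rw [hx]; push_cast; ring
    rw [h1, Complex.exp_periodic.int_mul k, Complex.exp_add, Complex.exp_pi_div_two_mul_I]
  fin_cases r
  · apply key (-24)
    simp only [lam, Fin.zero_eta, Matrix.cons_val_zero]
    push_cast
    linear_combination (-190 : ℝ) * ht
  · apply key 0
    simp only [lam, Fin.mk_one, Matrix.cons_val_one]
    push_cast
    linear_combination (2 : ℝ) * ht
  · apply key 25
    simp only [lam, Fin.reduceFinMk, Matrix.cons_val_two, Matrix.tail_cons, Matrix.head_cons]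
    push_cast
    linear_combination (202 : ℝ) * ht

theorem phase_neg (r : Fin 3) :
    Complex.exp (Complex.I * (tau * lam (-√2) r : ℝ))
      = - (Complex.exp (Complex.I * (80 * tau : ℝ)) * Complex.I) := by
  have hs : √2 ≠ 0 := by positivity
  have ht : tau * √2 = Real.pi / 4 := by unfold tau; field_simp
  have key : ∀ k : ℤ, ∀ x : ℝ, x = 80 * tau - Real.pi / 2 + k * (2 * Real.pi) →
      Complex.exp (Complex.I * (x : ℝ)) = - (Complex.exp (Complex.I * (80 * tau : ℝ)) * Complex.I) := by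
    intro k x hx
    have h1 : Complex.I * (x : ℝ) = Complex.I * (80 * tau : ℝ) + (-(Real.pi / 2 * Complex.I))
        + k * (2 * Real.pi * Complex.I) := by rw [hx]; push_cast; ring
    rw [h1, Complex.exp_periodic.int_mul k, Complex.exp_add, Complex.exp_neg,
      Complex.exp_pi_div_two_mul_I, Complex.inv_I, mul_neg]
  fin_cases r
  · apply key 24
    simp only [lam, Fin.zero_eta, Matrix.cons_val_zero]
    push_cast
    linear_combination (190 : ℝ) * ht
  · apply key 0
    simp only [lam, Fin.mk_one, Matrix.cons_val_one]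
    push_cast
    linear_combination (-2 : ℝ) * ht
  · apply key (-25)
    simp only [lam, Fin.reduceFinMk, Matrix.cons_val_two, Matrix.tail_cons, Matrix.head_cons]
    push_cast
    linear_combination (-202 : ℝ) * ht

/-- the action of `U(τ)` on `(1+σ) e_a + e_b` -/
theorem U_f (σ : ℝ) (hσ : σ * σ = 2) (ζ : ℂ)
    (hζ : ∀ r, Complex.exp (Complex.I * (tau * lam σ r : ℝ)) = ζ) :
    U Xb tau *ᵥ (fun v => ((kvec 31960 (1 + σ) 1 0 0 v : ℝ) : ℂ))
      = ζ • (fun v => ((kvec 31960 (1 + σ) 1 0 0 v : ℝ) : ℂ)) := by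
  have h1 : (fun v => ((kvec 31960 (1 + σ) 1 0 0 v : ℝ) : ℂ))
      = ∑ r, (fun v => ((ev σ r v : ℝ) : ℂ)) := by
    rw [← ev_sum σ hσ]
    ext v
    simp [Finset.sum_apply]
  rw [h1, Matrix.mulVec_sum, Finset.smul_sum]
  refine Finset.sum_congr rfl fun r _ => ?_
  rw [U_eig _ _ _ (ev_eig σ hσ r), hζ]

theorem kvec_e (σ : ℝ) : (fun v => ((kvec 31960 (1 + σ) 1 0 0 v : ℝ) : ℂ))
    = ((1 + σ : ℝ) : ℂ) • (Pi.single va 1 : Vt 31960 → ℂ) + (Pi.single vb 1 : Vt 31960 → ℂ) := by
  ext v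
  rcases v with p | ⟨i, u⟩
  · fin_cases p <;> simp [kvec, cvec]
  · fin_cases i <;> simp [kvec, cvec]

end aux

theorem balanced : BalancedFR Xb va vb tau := by
  set ζ : ℂ := Complex.exp (Complex.I * (80 * tau : ℝ)) * Complex.I with hζ
  have hp := U_f (√2) s2 ζ phase_pos
  have hn := U_f (-√2) s2' (-ζ) phase_neg
  rw [kvec_e] at hp hn
  have hs : (√2 : ℝ) ≠ 0 := by positivity
  have hsC : ((√2 : ℝ) : ℂ) ≠ 0 := by exact_mod_cast hs
  have hsC2 : ((√2 : ℝ) : ℂ) * ((√2 : ℝ) : ℂ) = 2 := by exact_mod_cast s2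
  have hnζ : ‖ζ‖ = 1 := by
    rw [hζ, norm_mul, Complex.norm_I, mul_one, mul_comm, Complex.norm_exp_ofReal_mul_I]
  refine ⟨ζ / (√2 : ℝ), ζ / (√2 : ℝ), ?_, ?_, ?_⟩
  · rw [norm_div, hnζ, Complex.norm_real, Real.norm_eq_abs, abs_of_pos (by positivity)]
  · rw [norm_div, hnζ, Complex.norm_real, Real.norm_eq_abs, abs_of_pos (by positivity)]
  · have he : (Pi.single va 1 : Vt 31960 → ℂ)
        = (1 / (2 * (√2 : ℝ)) : ℂ) • ((((1 + √2 : ℝ) : ℂ) • (Pi.single va 1 : Vt 31960 → ℂ)
            + (Pi.single vb 1 : Vt 31960 → ℂ)) - (((1 + -√2 : ℝ) : ℂ) • (Pi.single va 1 : Vt 31960 → ℂ)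
            + (Pi.single vb 1 : Vt 31960 → ℂ))) := by
      ext v
      simp only [Pi.smul_apply, Pi.sub_apply, Pi.add_apply, smul_eq_mul]
      push_cast
      field_simp
      ring
    conv_lhs => rw [he]
    rw [Matrix.mulVec_smul, Matrix.mulVec_sub, hp, hn]
    ext v
    simp only [Pi.smul_apply, Pi.sub_apply, Pi.add_apply, smul_eq_mul]
    push_cast
    field_simp
    linear_combination (0 : ℂ) * hsC2

/-- coordinates of `e_a` and `e_b` -/
theorem ea_sum : (EuclideanSpace.single va (1 : ℝ) : EuclideanSpace ℝ (Vt 31960))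
    = WithLp.toLp 2 ((1 / (2 * √2)) • (∑ r, ev (√2) r) + (-(1 / (2 * √2))) • (∑ r, ev (-√2) r)) := by
  rw [ev_sum _ s2, ev_sum _ s2', kvec_smul, kvec_smul]
  have hs : (√2 : ℝ) ≠ 0 := by positivity
  ext v
  rcases v with p | ⟨i, u⟩
  · fin_cases p
    · simp [kvec, cvec]; field_simp; ring
    · simp [kvec, cvec]
  · fin_cases i <;> simp [kvec, cvec]

theorem eb_sum : (EuclideanSpace.single vb (1 : ℝ) : EuclideanSpace ℝ (Vt 31960))
    = WithLp.toLp 2 (((√2 - 1) / (2 * √2)) • (∑ r, ev (√2) r)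
        + ((1 + √2) / (2 * √2)) • (∑ r, ev (-√2) r)) := by
  rw [ev_sum _ s2, ev_sum _ s2', kvec_smul, kvec_smul]
  have hs : (√2 : ℝ) ≠ 0 := by positivity
  have h2 := s2
  ext v
  rcases v with p | ⟨i, u⟩
  · fin_cases p
    · simp [kvec, cvec]; field_simp; ring
    · simp [kvec, cvec]; field_simp; ring
  · fin_cases i <;> simp [kvec, cvec]

theorem sqrt2_bounds : (1.4 : ℝ) < √2 ∧ √2 < 1.5 := by
  constructor
  · exact Real.lt_sqrt_of_sq_lt (by norm_num)
  · rw [Real.sqrt_lt' (by norm_num)]; norm_num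

/-- the projection onto the largest eigenvalue of the first class -/
theorem proj_eq (p q : ℝ) :
    eigProj Xb (lam (√2) 2) (WithLp.toLp 2 (p • (∑ r, ev (√2) r) + q • (∑ r, ev (-√2) r)))
      = WithLp.toLp 2 (p • ev (√2) 2) := by
  let w : Bool × Fin 3 → Vt 31960 → ℝ := fun x => if x.1 then p • ev (√2) x.2 else q • ev (-√2) x.2
  let μ : Bool × Fin 3 → ℝ := fun x => if x.1 then lam (√2) x.2 else lam (-√2) x.2
  have hsum : p • (∑ r, ev (√2) r) + q • (∑ r, ev (-√2) r)
      = p • ev (√2) 2 + ∑ x ∈ Finset.univ.erase ((true, 2) : Bool × Fin 3), w x := by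
    have h1 : p • (∑ r, ev (√2) r) + q • (∑ r, ev (-√2) r) = ∑ x, w x := by
      rw [Fintype.sum_prod_type]
      simp only [Fintype.sum_bool, w, if_true, Finset.smul_sum, Bool.false_eq_true, if_false]
    rw [h1, ← Finset.add_sum_erase _ w (Finset.mem_univ ((true, 2) : Bool × Fin 3))]
    simp only [w, if_true]
  rw [hsum]
  apply eigProj_of_sum Xb _ μ w
  · rw [Matrix.mulVec_smul, ev_eig _ s2, smul_comm]
  · rintro ⟨c, r⟩ _
    cases c
    · simp only [w, μ, Bool.false_eq_true, if_false]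
      rw [Matrix.mulVec_smul, ev_eig _ s2', smul_comm]
    · simp only [w, μ, if_true]
      rw [Matrix.mulVec_smul, ev_eig _ s2, smul_comm]
  · obtain ⟨hb1, hb2⟩ := sqrt2_bounds
    rintro ⟨c, r⟩ hx
    rw [Finset.mem_erase] at hx
    cases c
    · simp only [μ, Bool.false_eq_true, if_false]
      fin_cases r <;> simp [lam] <;> intro h <;> nlinarith
    · simp only [μ, if_true]
      fin_cases r
      · simp [lam]; intro h; nlinarith
      · simp [lam]
      · exact absurd rfl hx.1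

theorem not_cospectral : ¬ Cospectral Xb va vb := by
  intro h
  have h1 := h (lam (√2) 2)
  rw [eigEntry, eigEntry, ea_sum, eb_sum, proj_eq, proj_eq] at h1
  have ha : ev (√2) 2 va = (1 + √2) * ((31960 + lam (√2) 0 * lam (√2) 1) / 156800) := by
    simp [ev, kvec, cvec]
  have hb : ev (√2) 2 vb = (31960 + lam (√2) 0 * lam (√2) 1) / 156800 := by
    simp [ev, kvec, cvec]
  obtain ⟨hb1, hb2⟩ := sqrt2_bounds
  have hs : (√2 : ℝ) ≠ 0 := by positivity
  have hu : (0 : ℝ) < (31960 + lam (√2) 0 * lam (√2) 1) / 156800 := by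
    have h2 := s2
    simp only [lam, Matrix.cons_val_zero, Matrix.cons_val_one]
    apply div_pos _ (by norm_num)
    nlinarith
  set y : ℝ := (31960 + lam (√2) 0 * lam (√2) 1) / 156800 with hy
  have h3 : (1 / (2 * √2)) * ((1 + √2) * y) = ((√2 - 1) / (2 * √2)) * y := by
    rw [← ha, ← hb]
    exact h1
  field_simp at h3
  have h4 : y = 0 := by nlinarith
  linarith

/-- **Main result (Q1, yes).** There are a graph and two vertices that are not cospectral with
balanced fractional revival at some time `τ > 0`. -/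
theorem result : ∃ (V : Type) (_ : Fintype V) (_ : DecidableEq V) (X : SimpleGraph V)
    (_ : DecidableRel X.Adj) (a b : V) (τ : ℝ),
    a ≠ b ∧ ¬ Cospectral X a b ∧ 0 < τ ∧ BalancedFR X a b τ :=
  ⟨Vt 31960, inferInstance, inferInstance, Xb, inferInstance, va, vb, tau, by simp,
    not_cospectral, by unfold tau; positivity, balanced⟩

end Pool.Agent.Results.MP_74778d_co.BalancedRevival
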